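import Mathlib

set_option autoImplicit false

namespace Pool.Agent.Results.MP_f6f917_al.NoCyclicBlock

open Equiv

/-- `G ≤ FSym(Ω)`: every element of `G` is a finitary permutation, that is, it moves only
finitely many points of `Ω`. -/
def Finitary {Ω : Type} (G : Subgroup (Perm Ω)) : Prop :=
  ∀ g ∈ G, {x : Ω | g x ≠ x}.Finite

/-- `G` is transitive: it has a single orbit on `Ω`. -/
def Transitive {Ω : Type} (G : Subgroup (Perm Ω)) : Prop :=
  ∀ x y : Ω, ∃ g ∈ G, g x = y

/-- `B` is a block for `H`: it is nonempty and, for every `h ∈ H`, the image of `B` under `h` is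
either equal to `B` or disjoint from `B`. -/
def IsBlockFor {Ω : Type} (H : Subgroup (Perm Ω)) (B : Set Ω) : Prop :=
  B.Nonempty ∧ ∀ h ∈ H, h '' B = B ∨ Disjoint (h '' B) B

/-- `S` is a Sylow `p`-subgroup of `G`: a `p`-subgroup of `G` that is maximal under inclusion among
the `p`-subgroups of `G`. -/
def IsSylow (p : ℕ) {Ω : Type} (G S : Subgroup (Perm Ω)) : Prop :=
  Maximal (fun P : Subgroup (Perm Ω) => P ≤ G ∧ IsPGroup p P) S

/-- `H` is totally imprimitive: it is transitive, and every finite subset of `Ω` is contained in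
some finite block for `H`. -/
def TotallyImprimitive {Ω : Type} (H : Subgroup (Perm Ω)) : Prop :=
  Transitive H ∧ ∀ F : Set Ω, F.Finite → ∃ B : Set Ω, B.Finite ∧ F ⊆ B ∧ IsBlockFor H B

/-- `H` is a totally imprimitive `p`-group with the cyclic-block property: for every `h ∈ H` the
support of each cycle of `h` (the fixed points of `h` giving singletons) is a block for `H`. -/
def CyclicBlockProperty (p : ℕ) {Ω : Type} (H : Subgroup (Perm Ω)) : Prop :=
  IsPGroup p H ∧ TotallyImprimitive H ∧
    ∀ h ∈ H, ∀ x : Ω, IsBlockFor H {y : Ω | h.SameCycle x y}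

/-! ### The wreath product construction -/

lemma apply_inv {α : Type} (a : Perm α) (x : α) : a (a⁻¹ x) = x := a.apply_symm_apply x

lemma inv_apply {α : Type} (a : Perm α) (x : α) : a⁻¹ (a x) = x := a.symm_apply_apply x

/-- The elementary abelian group of order `p ^ 2`. -/
abbrev E (p : ℕ) : Type := ZMod p × ZMod p

/-- the finitary permutations of `I × E` of the form `(i, x) ↦ (σ i, x + e i)` with `σ ∈ L`. -/
def wr (p : ℕ) {I : Type} (L : Subgroup (Perm I)) : Subgroup (Perm (I × E p)) where
  carrier := {g | {x : I × E p | g x ≠ x}.Finite ∧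
    ∃ σ ∈ L, ∃ e : I → E p, ∀ i x, g (i, x) = (σ i, x + e i)}
  mul_mem' := by
    rintro a b ⟨ha, σ, hσ, e, he⟩ ⟨hb, τ, hτ, f, hf⟩
    refine ⟨?_, σ * τ, L.mul_mem hσ hτ, fun i => f i + e (τ i), ?_⟩
    · refine (ha.union hb).subset ?_
      intro x hx
      by_contra hcon
      simp only [Set.mem_union, Set.mem_ofPred_eq, not_or, not_not] at hcon
      apply hx
      simp [hcon.1, hcon.2]
    · intro i x
      simp [Perm.mul_apply, hf, he, add_assoc]
  one_mem' := by
    refine ⟨by simp, 1, L.one_mem, fun _ => 0, ?_⟩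
    intro i x
    simp
  inv_mem' := by
    rintro a ⟨ha, σ, hσ, e, he⟩
    refine ⟨?_, σ⁻¹, L.inv_mem hσ, fun i => - e (σ⁻¹ i), ?_⟩
    · refine ha.subset ?_
      intro x hx hcon
      apply hx
      rw [Perm.inv_eq_iff_eq, hcon]
    · intro i x
      rw [Perm.inv_eq_iff_eq, he]
      simp

lemma wr_mono (p : ℕ) {I : Type} {L M : Subgroup (Perm I)} (h : L ≤ M) : wr p L ≤ wr p M := by
  rintro g ⟨h1, σ, hσ, h2⟩
  exact ⟨h1, σ, h hσ, h2⟩

lemma wr_finitary (p : ℕ) {I : Type} (L : Subgroup (Perm I)) : Finitary (wr p L) := by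
  rintro g ⟨h1, -⟩
  exact h1

lemma wr_transitive (p : ℕ) [NeZero p] {I : Type} (L : Subgroup (Perm I)) (hL : Finitary L)
    (hT : Transitive L) : Transitive (wr p L) := by
  classical
  rintro ⟨i, x⟩ ⟨j, y⟩
  obtain ⟨σ, hσ, rfl⟩ := hT i j
  let e : I → E p := fun k => if k = i then y - x else 0
  let g : Perm (I × E p) :=
    { toFun := fun z => (σ z.1, z.2 + e z.1)
      invFun := fun z => (σ⁻¹ z.1, z.2 - e (σ⁻¹ z.1))
      left_inv := by
        rintro ⟨a, b⟩
        simp
      right_inv := by
        rintro ⟨a, b⟩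
        simp }
  refine ⟨g, ⟨?_, σ, hσ, e, fun i x => rfl⟩, ?_⟩
  · refine (((hL σ hσ).union (Set.finite_singleton i)).prod
      (Set.finite_univ : (Set.univ : Set (E p)).Finite)).subset ?_
    rintro ⟨a, b⟩ hab
    simp only [Set.mem_prod, Set.mem_union, Set.mem_ofPred_eq, Set.mem_singleton_iff,
      Set.mem_univ, and_true]
    by_contra hcon
    simp only [not_or, not_not] at hcon
    apply hab
    change (σ a, b + e a) = (a, b)
    simp [hcon.1, e, hcon.2]
  · change (σ i, x + e i) = (σ i, y)
    simp [e]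

lemma wr_isPGroup (p : ℕ) {I : Type} (L : Subgroup (Perm I)) (hL : IsPGroup p L) :
    IsPGroup p (wr p L) := by
  rintro ⟨g, hg1, σ, hσ, e, he⟩
  obtain ⟨m, hm⟩ := hL ⟨σ, hσ⟩
  have hm' : σ ^ p ^ m = 1 := by
    have := congrArg Subtype.val hm
    simpa using this
  have key : ∀ k : ℕ, ∃ e' : I → E p, ∀ i x, (g ^ k) (i, x) = ((σ ^ k) i, x + e' i) := by
    intro k
    induction k with
    | zero => exact ⟨fun _ => 0, fun i x => by simp⟩
    | succ k ih =>
      obtain ⟨e', he'⟩ := ih
      refine ⟨fun i => e' i + e ((σ ^ k) i), fun i x => ?_⟩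
      rw [pow_succ', Perm.mul_apply, he', he, pow_succ', Perm.mul_apply, add_assoc]
  obtain ⟨e', he'⟩ := key (p ^ m)
  rw [hm'] at he'
  have key2 : ∀ k : ℕ, ∀ i x, ((g ^ p ^ m) ^ k) (i, x) = (i, x + k • e' i) := by
    intro k
    induction k with
    | zero => intro i x; simp
    | succ k ih =>
      intro i x
      rw [pow_succ', Perm.mul_apply, ih, he', succ_nsmul, add_assoc]
      rfl
  refine ⟨m + 1, ?_⟩
  apply Subtype.ext
  change g ^ p ^ (m + 1) = 1
  ext1 ⟨i, x⟩
  rw [pow_succ, pow_mul, key2]
  have : p • e' i = 0 := by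
    ext <;> simp
  rw [this, add_zero]
  rfl

/-! ### A transitive finitary `p`-group on an infinite set -/

/-- The underlying set: finitely supported sequences of digits. -/
abbrev I (p : ℕ) : Type := ℕ →₀ ZMod p

/-- the infinitely iterated wreath product of cyclic groups of order `p`. -/
def W (p : ℕ) : Subgroup (Perm (I p)) where
  carrier := {g | {x | g x ≠ x}.Finite ∧ ∀ k : ℕ, ∀ x y : I p,
    ((∀ i, k ≤ i → x i = y i) ↔ (∀ i, k ≤ i → g x i = g y i)) ∧
    ((∀ i, k < i → x i = y i) → g x k - x k = g y k - y k)}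
  mul_mem' := by
    rintro a b ⟨ha, ha'⟩ ⟨hb, hb'⟩
    refine ⟨?_, ?_⟩
    · refine (ha.union hb).subset ?_
      intro x hx
      by_contra hcon
      simp only [Set.mem_union, Set.mem_ofPred_eq, not_or, not_not] at hcon
      apply hx
      simp [hcon.1, hcon.2]
    · intro k x y
      refine ⟨((hb' k x y).1.trans (ha' k (b x) (b y)).1), ?_⟩
      intro hxy
      have h1 := (hb' k x y).2 hxy
      have h2 := (ha' k (b x) (b y)).2 ((hb' (k + 1) x y).1.1 hxy)
      have e1 : (a * b) x k - x k = (a (b x) k - b x k) + (b x k - x k) := by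
        simp
      have e2 : (a * b) y k - y k = (a (b y) k - b y k) + (b y k - y k) := by
        simp
      rw [e1, e2, h1, h2]
  one_mem' := by
    refine ⟨by simp, ?_⟩
    intro k x y
    simp
  inv_mem' := by
    rintro a ⟨ha, ha'⟩
    refine ⟨?_, ?_⟩
    · refine ha.subset ?_
      intro x hx hcon
      apply hx
      rw [Perm.inv_eq_iff_eq, hcon]
    · intro k x y
      refine ⟨?_, ?_⟩
      · have := (ha' k (a⁻¹ x) (a⁻¹ y)).1
        simp only [apply_inv] at this
        exact this.symm
      · intro hxy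
        have h0 := (ha' (k + 1) (a⁻¹ x) (a⁻¹ y)).1
        simp only [apply_inv] at h0
        have h1 := (ha' k (a⁻¹ x) (a⁻¹ y)).2 (h0.2 hxy)
        simp only [apply_inv] at h1
        have e1 : (a⁻¹ x) k - x k = - (x k - (a⁻¹ x) k) := by ring
        have e2 : (a⁻¹ y) k - y k = - (y k - (a⁻¹ y) k) := by ring
        rw [e1, e2, h1]

lemma W_finitary (p : ℕ) : Finitary (W p) := by
  rintro g ⟨h1, -⟩
  exact h1

lemma W_isPGroup (p : ℕ) : IsPGroup p (W p) := by
  rintro ⟨g, hg1, hg2⟩
  -- a level above which nothing happens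
  obtain ⟨m, hm⟩ : ∃ m : ℕ, ∀ x : I p, g x ≠ x → ∀ i, m ≤ i → x i = 0 := by
    have hfin : (⋃ x ∈ {x | g x ≠ x}, (x.support : Set ℕ)).Finite :=
      hg1.biUnion (fun x _ => x.support.finite_toSet)
    obtain ⟨m, hm⟩ := hfin.bddAbove
    refine ⟨m + 1, fun x hx i hi => ?_⟩
    by_contra hne
    have : i ∈ (⋃ x ∈ {x | g x ≠ x}, (x.support : Set ℕ)) := by
      simp only [Set.mem_iUnion]
      exact ⟨x, hx, by simpa using hne⟩
    have := hm this
    omega
  have base : ∀ x : I p, ∀ i, m ≤ i → g x i = x i := by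
    intro x i hi
    by_cases hx : g x = x
    · rw [hx]
    · have h2 : g (g x) ≠ g x := fun h => hx (g.injective h)
      rw [hm x hx i hi, hm (g x) h2 i hi]
  have memW : ∀ j : ℕ, g ^ j ∈ W p := fun j => (W p).pow_mem ⟨hg1, hg2⟩ j
  have key : ∀ j : ℕ, j ≤ m → ∀ x : I p, ∀ i, m - j ≤ i → (g ^ p ^ j) x i = x i := by
    intro j
    induction j with
    | zero =>
      intro _ x i hi
      simpa using base x i (by simpa using hi)
    | succ j ih =>
      intro hj x i hi
      have ihj := ih (by omega)
      set h := g ^ p ^ j with hh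
      obtain ⟨-, hW⟩ := memW (p ^ j)
      rw [← hh] at hW
      have hpow : g ^ p ^ (j + 1) = h ^ p := by
        rw [hh, ← pow_mul, pow_succ]
      rw [hpow]
      have hstay : ∀ n : ℕ, ∀ i, m - j ≤ i → (h ^ n) x i = x i := by
        intro n
        induction n with
        | zero => intro i _; simp
        | succ n ihn =>
          intro i hi
          rw [pow_succ', Perm.mul_apply, ihj _ i hi, ihn i hi]
      rcases Nat.lt_or_ge i (m - j) with hlt | hge
      · -- the digit `i = m - j - 1`
        have hi' : i = m - (j + 1) := by omega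
        have hdig : ∀ n : ℕ, (h ^ n) x i = x i + n • (h x i - x i) := by
          intro n
          induction n with
          | zero => simp
          | succ n ihn =>
            have hs := (hW i ((h ^ n) x) x).2 (fun l hl => hstay n l (by omega))
            rw [pow_succ', Perm.mul_apply, succ_nsmul]
            have : h ((h ^ n) x) i = (h x i - x i) + (h ^ n) x i := by
              rw [← hs]; ring
            rw [this, ihn]; ring
        rw [hdig p]
        simp
      · exact hstay p i hge
  refine ⟨m, ?_⟩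
  apply Subtype.ext
  change g ^ p ^ m = 1
  ext1 x
  apply Finsupp.ext
  intro i
  exact key m le_rfl x i (by omega)

/-- add one to the `k`-th digit if all higher digits vanish. -/
noncomputable def c (p : ℕ) (k : ℕ) : Perm (I p) := by
  classical
  exact
  { toFun := fun x => if (∀ i, k < i → x i = 0) then x + Finsupp.single k 1 else x
    invFun := fun x => if (∀ i, k < i → x i = 0) then x - Finsupp.single k 1 else x
    left_inv := by
      intro x
      by_cases h : ∀ i, k < i → x i = 0
      · have h' : ∀ i, k < i → (x + Finsupp.single k 1 : I p) i = 0 := by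
          intro i hi
          rw [Finsupp.add_apply, h i hi, Finsupp.single_eq_of_ne (by omega), add_zero]
        dsimp only
        rw [if_pos h, if_pos h']
        simp
      · dsimp only
        rw [if_neg h, if_neg h]
    right_inv := by
      intro x
      by_cases h : ∀ i, k < i → x i = 0
      · have h' : ∀ i, k < i → (x - Finsupp.single k 1 : I p) i = 0 := by
          intro i hi
          rw [Finsupp.sub_apply, h i hi, Finsupp.single_eq_of_ne (by omega), sub_zero]
        dsimp only
        rw [if_pos h, if_pos h']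
        simp
      · dsimp only
        rw [if_neg h, if_neg h] }

lemma c_apply_pos (p k : ℕ) (x : I p) (h : ∀ i, k < i → x i = 0) :
    c p k x = x + Finsupp.single k 1 := by
  simp only [c, Equiv.coe_fn_mk]
  exact if_pos h

lemma c_apply_neg (p k : ℕ) (x : I p) (h : ¬ ∀ i, k < i → x i = 0) :
    c p k x = x := by
  simp only [c, Equiv.coe_fn_mk]
  exact if_neg h

lemma c_apply_high (p k : ℕ) (x : I p) (i : ℕ) (hi : i ≠ k) : c p k x i = x i := by
  by_cases h : ∀ i, k < i → x i = 0
  · rw [c_apply_pos p k x h, Finsupp.add_apply, Finsupp.single_eq_of_ne (by omega), add_zero]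
  · rw [c_apply_neg p k x h]

lemma c_mem (p : ℕ) [NeZero p] (k : ℕ) : c p k ∈ W p := by
  classical
  refine ⟨?_, ?_⟩
  · have hfin : ({x : I p | ∀ i, k < i → x i = 0}).Finite := by
      refine Set.Finite.of_finite_image (f := fun (x : I p) (i : Fin (k + 1)) => x i)
        (Set.toFinite _) ?_
      intro x hx y hy hxy
      apply Finsupp.ext
      intro i
      rcases Nat.lt_or_ge k i with h | h
      · rw [hx i h, hy i h]
      · exact congrFun hxy ⟨i, by omega⟩
    refine hfin.subset ?_
    intro x hx
    by_contra hcon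
    exact hx (c_apply_neg p k x hcon)
  · intro j x y
    constructor
    · rcases Nat.lt_or_ge k j with hkj | hkj
      · -- level above `k`: nothing changes
        constructor
        · intro h i hi
          rw [c_apply_high p k x i (by omega), c_apply_high p k y i (by omega), h i hi]
        · intro h i hi
          have := h i hi
          rwa [c_apply_high p k x i (by omega), c_apply_high p k y i (by omega)] at this
      · by_cases hx : ∀ i, k < i → x i = 0
        · by_cases hy : ∀ i, k < i → y i = 0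
          · rw [c_apply_pos p k x hx, c_apply_pos p k y hy]
            simp
          · constructor
            · intro h
              exact absurd (fun i hi => by rw [← h i (by omega), hx i hi]) hy
            · intro h
              exact absurd (fun i hi => by
                have := h i (by omega)
                rw [c_apply_high p k x i (by omega), c_apply_high p k y i (by omega)] at this
                rw [← this, hx i hi]) hy
        · by_cases hy : ∀ i, k < i → y i = 0
          · constructor
            · intro h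
              exact absurd (fun i hi => by rw [h i (by omega), hy i hi]) hx
            · intro h
              exact absurd (fun i hi => by
                have := h i (by omega)
                rw [c_apply_high p k x i (by omega), c_apply_high p k y i (by omega)] at this
                rw [this, hy i hi]) hx
          · rw [c_apply_neg p k x hx, c_apply_neg p k y hy]
    · intro hxy
      rcases Nat.lt_trichotomy j k with hjk | rfl | hjk
      · rw [c_apply_high p k x j (by omega), c_apply_high p k y j (by omega)]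
        ring
      · by_cases hx : ∀ i, j < i → x i = 0
        · have hy : ∀ i, j < i → y i = 0 := fun i hi => by rw [← hxy i hi, hx i hi]
          rw [c_apply_pos p j x hx, c_apply_pos p j y hy]
          simp
        · have hy : ¬ ∀ i, j < i → y i = 0 := fun h => hx (fun i hi => by rw [hxy i hi, h i hi])
          rw [c_apply_neg p j x hx, c_apply_neg p j y hy]
          simp
      · rw [c_apply_high p k x j (by omega), c_apply_high p k y j (by omega)]
        ring

lemma c_pow_apply (p k : ℕ) (x : I p) (h : ∀ i, k < i → x i = 0) (n : ℕ) :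
    ((c p k) ^ n) x = x + Finsupp.single k (n : ZMod p) := by
  induction n with
  | zero => simp
  | succ n ih =>
    rw [pow_succ', Perm.mul_apply, ih, c_apply_pos]
    · rw [add_assoc, ← Finsupp.single_add]
      simp
    · intro i hi
      rw [Finsupp.add_apply, h i hi, Finsupp.single_eq_of_ne (by omega), add_zero]

lemma W_transitive (p : ℕ) [NeZero p] : Transitive (W p) := by
  have key : ∀ m : ℕ, ∀ y : I p, (∀ i, m ≤ i → y i = 0) → ∃ g ∈ W p, g 0 = y := by
    intro m
    induction m with
    | zero =>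
      intro y hy
      refine ⟨1, (W p).one_mem, ?_⟩
      apply Finsupp.ext
      intro i
      simp [hy i (Nat.zero_le i)]
    | succ m ih =>
      intro y hy
      obtain ⟨g, hg, hg0⟩ := ih (y - Finsupp.single m (y m)) (by
        intro i hi
        rcases Nat.eq_or_lt_of_le hi with rfl | hlt
        · simp
        · rw [Finsupp.sub_apply, hy i hlt, Finsupp.single_eq_of_ne (by omega), sub_zero])
      refine ⟨(c p m) ^ (ZMod.val (y m)) * g, (W p).mul_mem ((W p).pow_mem (c_mem p m) _) hg, ?_⟩
      rw [Perm.mul_apply, hg0, c_pow_apply]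
      · simp
      · intro i hi
        rw [Finsupp.sub_apply, hy i hi, Finsupp.single_eq_of_ne (by omega), sub_zero]
  have key' : ∀ y : I p, ∃ g ∈ W p, g 0 = y := by
    intro y
    obtain ⟨m, hm⟩ := y.support.bddAbove
    refine key (m + 1) y (fun i hi => ?_)
    by_contra hne
    have := hm (show i ∈ (y.support : Set ℕ) by simpa using hne)
    omega
  intro x y
  obtain ⟨g, hg, rfl⟩ := key' x
  obtain ⟨h, hh, rfl⟩ := key' y
  exact ⟨h * g⁻¹, (W p).mul_mem hh ((W p).inv_mem hg), by simp⟩

/-! ### The main argument -/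

/-- If `H` is a transitive subgroup with the cyclic-block property on an infinite set, consisting
of finitary permutations, then any finite set `B` is contained in a single cycle of some element
of `H`. -/
lemma exists_cycle {Ω : Type} [Infinite Ω] {p : ℕ} {H : Subgroup (Perm Ω)} (hfin : Finitary H)
    (hH : CyclicBlockProperty p H) (a : Ω) (B : Set Ω) (hB : B.Finite) :
    ∃ t ∈ H, ∀ y ∈ B, t.SameCycle a y := by
  classical
  obtain ⟨-, ⟨htr, himp⟩, hcyc⟩ := hH
  choose h hh hha using fun y : Ω => htr a y
  obtain ⟨C, hCfin, hFC, hCblock⟩ := himp (insert a (⋃ y ∈ B, {x | h y x ≠ x}))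
    (Set.Finite.insert a (hB.biUnion (fun y _ => hfin (h y) (hh y))))
  obtain ⟨w, hw⟩ := hCfin.exists_notMem
  obtain ⟨t, ht, rfl⟩ := htr a w
  refine ⟨t, ht, fun y hy => ?_⟩
  obtain ⟨-, hD⟩ := hcyc t ht a
  have hfix : h y (t a) = t a := by
    by_contra hne
    apply hw
    apply hFC
    right
    simp only [Set.mem_iUnion]
    exact ⟨y, hy, hne⟩
  have hmem : t a ∈ {y : Ω | t.SameCycle a y} := ⟨1, by simp⟩
  have hamem : a ∈ {y : Ω | t.SameCycle a y} := Perm.SameCycle.refl t a
  have heq : h y '' {y : Ω | t.SameCycle a y} = {y : Ω | t.SameCycle a y} := by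
    rcases hD (h y) (hh y) with h1 | h1
    · exact h1
    · exfalso
      exact Set.disjoint_left.1 h1 ⟨t a, hmem, hfix⟩ hmem
  have : h y a ∈ h y '' {y : Ω | t.SameCycle a y} := ⟨a, hamem, rfl⟩
  rw [heq, hha] at this
  exact this

/-- No transitive subgroup of the wreath product has the cyclic-block property. -/
lemma no_cyclicBlock (p : ℕ) [Fact p.Prime] {J : Type} [Infinite J] (L : Subgroup (Perm J))
    (H : Subgroup (Perm (J × E p))) (hHL : H ≤ wr p L) : ¬ CyclicBlockProperty p H := by
  intro hH
  have hfin : Finitary H := fun g hg => wr_finitary p L g (hHL hg)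
  obtain ⟨i⟩ : Nonempty J := inferInstance
  obtain ⟨t, ht, hcyc⟩ := exists_cycle hfin hH ((i, 0) : J × E p)
    {(i, (1, 0)), (i, (0, 1))} (Set.toFinite _)
  obtain ⟨k₁, hk₁⟩ := hcyc (i, (1, 0)) (by simp)
  obtain ⟨k₂, hk₂⟩ := hcyc (i, (0, 1)) (by simp)
  -- the exponents returning to the fibre act by translations
  have trans : ∀ (k : ℤ) (y : E p), (t ^ k) (i, 0) = (i, y) → ∀ x, (t ^ k) (i, x) = (i, x + y) := by
    intro k y hk x
    obtain ⟨-, σ, -, e, he⟩ := hHL (H.zpow_mem ht k)
    have h0 := he i 0
    rw [hk] at h0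
    have h1 : σ i = i := (congrArg Prod.fst h0).symm
    have h2 : y = 0 + e i := congrArg Prod.snd h0
    rw [he i x, h1, h2, zero_add]
  have add : ∀ (k l : ℤ) (y z : E p), (t ^ k) (i, 0) = (i, y) → (t ^ l) (i, 0) = (i, z) →
      (t ^ (k + l)) (i, 0) = (i, y + z) := by
    intro k l y z hk hl
    rw [add_comm, zpow_add, Perm.mul_apply, hk, trans l z hl]
  have neg : ∀ (k : ℤ) (y : E p), (t ^ k) (i, 0) = (i, y) → (t ^ (-k)) (i, 0) = (i, -y) := by
    intro k y hk
    rw [zpow_neg, Perm.inv_eq_iff_eq, trans k y hk]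
    simp
  have nmul : ∀ (n : ℕ) (k : ℤ) (y : E p), (t ^ k) (i, 0) = (i, y) →
      (t ^ ((n : ℤ) * k)) (i, 0) = (i, (n : ℤ) • y) := by
    intro n
    induction n with
    | zero => intro k y _; simp
    | succ n ih =>
      intro k y hk
      have := add _ _ _ _ (ih k y hk) hk
      have e1 : ((n + 1 : ℕ) : ℤ) * k = (n : ℤ) * k + k := by push_cast; ring
      have e2 : ((n + 1 : ℕ) : ℤ) • y = (n : ℤ) • y + y := by
        rw [Nat.cast_succ, add_smul, one_smul]
      rw [e1, e2]
      exact this
  have mul : ∀ (n : ℤ) (k : ℤ) (y : E p), (t ^ k) (i, 0) = (i, y) →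
      (t ^ (n * k)) (i, 0) = (i, n • y) := by
    intro n k y hk
    rcases Int.eq_nat_or_neg n with ⟨m, rfl | rfl⟩
    · exact nmul m k y hk
    · have := neg _ _ (nmul m k y hk)
      rwa [← neg_mul, ← neg_smul] at this
  -- the greatest common divisor of the two exponents
  obtain ⟨m, hm⟩ := Int.gcd_dvd_left k₁ k₂
  obtain ⟨n, hn⟩ := Int.gcd_dvd_right k₁ k₂
  have hbez := Int.gcd_eq_gcd_ab k₁ k₂
  set d : ℤ := (Int.gcd k₁ k₂ : ℤ) with hd
  set u := Int.gcdA k₁ k₂
  set v := Int.gcdB k₁ k₂
  have hdv : (t ^ d) (i, 0) = (i, u • ((1, 0) : E p) + v • ((0, 1) : E p)) := by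
    rw [hbez, mul_comm k₁ u, mul_comm k₂ v]
    exact add _ _ _ _ (mul u k₁ _ hk₁) (mul v k₂ _ hk₂)
  have h1 := mul m d _ hdv
  rw [mul_comm m d, ← hm, hk₁] at h1
  have h2 := mul n d _ hdv
  rw [mul_comm n d, ← hn, hk₂] at h2
  have h1' := congrArg Prod.snd h1
  have h2' := congrArg Prod.snd h2
  have e1 : (0 : ZMod p) = (m : ZMod p) * (v : ZMod p) := by
    simpa using congrArg Prod.snd h1'
  have e1' : (1 : ZMod p) = (m : ZMod p) * (u : ZMod p) := by
    simpa using congrArg Prod.fst h1'
  have e2 : (1 : ZMod p) = (n : ZMod p) * (v : ZMod p) := by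
    simpa using congrArg Prod.snd h2'
  have hm0 : (m : ZMod p) ≠ 0 := by
    intro h
    rw [h, zero_mul] at e1'
    exact one_ne_zero e1'
  have hv0 : (v : ZMod p) = 0 := by
    rcases mul_eq_zero.1 e1.symm with h | h
    · exact absurd h hm0
    · exact h
  rw [hv0, mul_zero] at e2
  exact one_ne_zero e2

/-- The ambient group is not a `p`-group. -/
lemma wr_top_not_isPGroup (p : ℕ) [Fact p.Prime] {J : Type} [Infinite J] :
    ¬ IsPGroup p (wr p (⊤ : Subgroup (Perm J))) := by
  classical
  intro hP
  -- lift a finitary permutation of `J`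
  have lift : ∀ σ : Perm J, {x | σ x ≠ x}.Finite → ∃ k : ℕ, σ ^ p ^ k = 1 := by
    intro σ hσ
    let g : Perm (J × E p) := Equiv.prodCongr σ (Equiv.refl _)
    have hg : g ∈ wr p (⊤ : Subgroup (Perm J)) := by
      refine ⟨?_, σ, trivial, fun _ => 0, fun i x => by simp [g]⟩
      refine (hσ.prod (Set.finite_univ : (Set.univ : Set (E p)).Finite)).subset ?_
      rintro ⟨a, b⟩ hab
      simp only [Set.mem_prod, Set.mem_ofPred_eq, Set.mem_univ, and_true]
      intro hcon
      apply hab
      simp [g, hcon]
    obtain ⟨k, hk⟩ := hP ⟨g, hg⟩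
    refine ⟨k, ?_⟩
    have hk' : g ^ p ^ k = 1 := congrArg Subtype.val hk
    have hpow : ∀ n : ℕ, ∀ a b, (g ^ n) (a, b) = ((σ ^ n) a, b) := by
      intro n
      induction n with
      | zero => intro a b; simp
      | succ n ih =>
        intro a b
        rw [pow_succ', Perm.mul_apply, ih, pow_succ', Perm.mul_apply]
        rfl
    ext1 a
    have := hpow (p ^ k) a 0
    rw [hk'] at this
    exact (congrArg Prod.fst this).symm
  obtain ⟨a, b, hab⟩ := exists_pair_ne J
  have hswap : ∀ a b : J, {x | Equiv.swap a b x ≠ x}.Finite := by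
    intro a b
    refine (Set.toFinite {a, b}).subset ?_
    intro x hx
    by_contra hcon
    simp only [Set.mem_insert_iff, Set.mem_singleton_iff, not_or] at hcon
    exact hx (Equiv.swap_apply_of_ne_of_ne hcon.1 hcon.2)
  have hprime : p.Prime := Fact.out
  by_cases hp2 : p = 2
  · obtain ⟨c, hc⟩ := (Set.toFinite ({a, b} : Set J)).exists_notMem
    simp only [Set.mem_insert_iff, Set.mem_singleton_iff, not_or] at hc
    obtain ⟨hca, hcb⟩ := hc
    have hfin : {x | (Equiv.swap a b * Equiv.swap a c) x ≠ x}.Finite := by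
      refine ((hswap a b).union (hswap a c)).subset ?_
      intro x hx
      by_contra hcon
      simp only [Set.mem_union, Set.mem_ofPred_eq, not_or, not_not] at hcon
      apply hx
      rw [Perm.mul_apply, hcon.2, hcon.1]
    obtain ⟨k, hk⟩ := lift _ hfin
    have h3 : (Equiv.swap a b * Equiv.swap a c) ^ 3 = 1 := by
      have e1 : Equiv.swap a b * Equiv.swap a c * Equiv.swap a b = Equiv.swap b c := by
        have := Equiv.swap_mul_swap_mul_swap (x := c) (y := a) (z := b) hca hcb
        rw [Equiv.swap_comm c a] at this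
        exact this
      have e2 : Equiv.swap a c * Equiv.swap a b * Equiv.swap a c = Equiv.swap b c := by
        have := Equiv.swap_mul_swap_mul_swap (x := b) (y := a) (z := c) (Ne.symm hab)
          (Ne.symm hcb)
        rw [Equiv.swap_comm b a, Equiv.swap_comm c b] at this
        exact this
      calc (Equiv.swap a b * Equiv.swap a c) ^ 3
          = (Equiv.swap a b * Equiv.swap a c * Equiv.swap a b) *
              (Equiv.swap a c * Equiv.swap a b * Equiv.swap a c) := by
            simp only [pow_succ, pow_zero, one_mul, mul_assoc]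
        _ = 1 := by rw [e1, e2, Equiv.swap_mul_self]
    have hcop : Nat.gcd 3 (p ^ k) = 1 := by
      rw [hp2]
      exact Nat.Coprime.pow_right k (by norm_num)
    have h1 := pow_gcd_eq_one.2 ⟨h3, hk⟩
    rw [hcop, pow_one] at h1
    have h2 : (Equiv.swap a b * Equiv.swap a c) c = c := by rw [h1]; rfl
    rw [Perm.mul_apply, Equiv.swap_apply_right, Equiv.swap_apply_left] at h2
    exact hcb h2.symm
  · obtain ⟨k, hk⟩ := lift _ (hswap a b)
    have h2 : (Equiv.swap a b) ^ 2 = 1 := by rw [pow_two, Equiv.swap_mul_self]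
    have hcop : Nat.gcd 2 (p ^ k) = 1 :=
      Nat.Coprime.pow_right k ((Nat.coprime_primes Nat.prime_two hprime).2 (Ne.symm hp2))
    have h1 := pow_gcd_eq_one.2 ⟨h2, hk⟩
    rw [hcop, pow_one] at h1
    exact hab (Equiv.swap_eq_one_iff.1 h1)

/-- Every `p`-subgroup of `G` lies in a Sylow `p`-subgroup of `G`. -/
lemma exists_isSylow (p : ℕ) {Ω : Type} (G P : Subgroup (Perm Ω)) (hPG : P ≤ G)
    (hP : IsPGroup p P) : ∃ S, IsSylow p G S ∧ P ≤ S := by
  obtain ⟨Q, hQ⟩ := (IsPGroup.comap_subtype hP (K := G)).exists_le_sylow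
  refine ⟨(Q : Subgroup G).map G.subtype, ⟨⟨?_, Q.2.map G.subtype⟩, ?_⟩, ?_⟩
  · rintro _ ⟨g, -, rfl⟩
    exact g.2
  · rintro T ⟨hTG, hT⟩ hQT
    have h1 : (Q : Subgroup G) ≤ T.comap G.subtype := by
      intro g hg
      exact hQT ⟨g, hg, rfl⟩
    have h2 := Q.3 (IsPGroup.comap_subtype hT (K := G)) h1
    intro t ht
    refine ⟨⟨t, hTG ht⟩, ?_, rfl⟩
    have : (⟨t, hTG ht⟩ : G) ∈ T.comap G.subtype := ht
    rw [h2] at this
    exact this
  · intro x hx
    exact ⟨⟨x, hPG hx⟩, hQ hx, rfl⟩

/-- **Main theorem.** For every prime `p` there are an infinite set `Ω` and a transitive group `G`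
of finitary permutations of `Ω`, not itself a `p`-group, which has a transitive Sylow
`p`-subgroup, and such that no transitive Sylow `p`-subgroup of `G` contains a transitive subgroup
with the cyclic-block property. -/
theorem result (p : ℕ) (hp : p.Prime) :
    ∃ (Ω : Type) (G : Subgroup (Perm Ω)), Infinite Ω ∧ Countable Ω ∧ Finitary G ∧ Transitive G ∧
      ¬ IsPGroup p G ∧ (∃ S, IsSylow p G S ∧ Transitive S) ∧
      ∀ S, IsSylow p G S → Transitive S → ∀ H, H ≤ S → Transitive H →
        ¬ CyclicBlockProperty p H := by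
  have : Fact p.Prime := ⟨hp⟩
  have : NeZero p := ⟨hp.ne_zero⟩
  have hle : wr p (W p) ≤ wr p (⊤ : Subgroup (Perm (I p))) := wr_mono p le_top
  have htr := wr_transitive p (W p) (W_finitary p) (W_transitive p)
  refine ⟨I p × E p, wr p ⊤, inferInstance, inferInstance, wr_finitary p ⊤, ?_,
    wr_top_not_isPGroup p, ?_, ?_⟩
  · intro x y
    obtain ⟨g, hg, hxy⟩ := htr x y
    exact ⟨g, hle hg, hxy⟩
  · -- extend the transitive `p`-subgroup to a Sylow `p`-subgroup
    obtain ⟨S, hS, hWS⟩ := exists_isSylow p (wr p ⊤) (wr p (W p)) hle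
      (wr_isPGroup p (W p) (W_isPGroup p))
    refine ⟨S, hS, fun x y => ?_⟩
    obtain ⟨g, hg, hxy⟩ := htr x y
    exact ⟨g, hWS hg, hxy⟩
  · intro S hS _ H hHS _
    exact no_cyclicBlock p ⊤ H (hHS.trans hS.prop.1)

end Pool.Agent.Results.MP_f6f917_al.NoCyclicBlock
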